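import Pool.Agent.Helper31.LQ.Goals2

/-!
# Packet SH1
-/

open MeasureTheory Set
open scoped ENNReal Matrix Pointwise
open Pool.Agent.Helper47.AQ

noncomputable section

namespace Pool.Agent.Helper30.LQ

open Pool.Agent Pool.Agent.Helper31.LQ

/-- the linear functional of the proof, on `ℝ^(n+1)` -/
def FF (n : ℕ) (τ : ℝ) (j a : Fin (n + 1)) (t : Fin (n + 1) → ℝ) : ℝ :=
  (1 + τ) * ∑ o, t o - n * τ * t a - (n + 1 + τ) * t j

theorem FF_add_const (n : ℕ) (τ : ℝ) (j a : Fin (n + 1)) (t : Fin (n + 1) → ℝ) (c : ℝ) :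
    FF n τ j a (fun o => t o + c) = FF n τ j a t := by
  simp only [FF, Finset.sum_add_distrib, Finset.sum_const, Finset.card_univ, Fintype.card_fin,
    nsmul_eq_mul, Nat.cast_add, Nat.cast_one]
  ring

theorem li_pr (n : ℕ) (t : Fin (n + 1) → ℝ) : li (pr t) = fun o => t o + (-t (Fin.last n)) := by
  funext o
  refine Fin.lastCases ?_ (fun l => ?_) o
  · simp [li]
  · simp [li, pr, sub_eq_add_neg]

theorem FF_li_pr (n : ℕ) (τ : ℝ) (j a : Fin (n + 1)) (t : Fin (n + 1) → ℝ) :
    FF n τ j a (li (pr t)) = FF n τ j a t := by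
  rw [li_pr, FF_add_const]

theorem FF_smul_single (n : ℕ) (τ : ℝ) (j a o : Fin (n + 1)) (c : ℝ) :
    FF n τ j a (c • (Pi.single o 1 : Fin (n + 1) → ℝ)) =
      c * ((1 + τ) - n * τ * (if a = o then 1 else 0) - (n + 1 + τ) * (if j = o then 1 else 0)) := by
  simp only [FF, Pi.smul_apply, smul_eq_mul, ← Finset.mul_sum, Pi.single_apply,
    Finset.sum_ite_eq', Finset.mem_univ, if_true]
  split_ifs <;> ring

theorem pr_smul {n : ℕ} (c : ℝ) (t : Fin (n + 1) → ℝ) : pr (c • t) = c • pr t := by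
  funext l
  simp only [pr, Pi.smul_apply, smul_eq_mul]
  ring

theorem pr_add {n : ℕ} (s t : Fin (n + 1) → ℝ) : pr (s + t) = pr s + pr t := by
  funext l
  simp only [pr, Pi.add_apply]
  ring

theorem li_add {n : ℕ} (x y : Fin n → ℝ) : li (x + y) = li x + li y := by
  funext o
  refine Fin.lastCases ?_ (fun l => ?_) o
  · simp [li]
  · simp [li]

theorem li_smul {n : ℕ} (c : ℝ) (x : Fin n → ℝ) : li (c • x) = c • li x := by
  funext o
  refine Fin.lastCases ?_ (fun l => ?_) o
  · simp [li]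
  · simp [li]

theorem FF_isLinear (n : ℕ) (τ : ℝ) (j a : Fin (n + 1)) :
    IsLinearMap ℝ (fun x : Fin n → ℝ => FF n τ j a (li x)) := by
  constructor
  · intro x y
    simp only [li_add, FF, Pi.add_apply, Finset.sum_add_distrib]
    ring
  · intro c x
    simp only [li_smul, FF, Pi.smul_apply, smul_eq_mul, ← Finset.mul_sum]
    ring

theorem FF_le {n : ℕ} (hn : 1 ≤ n) {τ : ℝ} (h0 : 0 < τ) (h1 : τ ≤ 1) {j a : Fin (n + 1)}
    (hja : a ≠ j) {x : Fin n → ℝ} (hx : x ∈ Kt n τ) : FF n τ j a (li x) ≤ 1 := by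
  have hn0 : (0 : ℝ) < n := by exact_mod_cast hn
  have hn1 : (1 : ℝ) ≤ n := by exact_mod_cast hn
  have hsub : Kt n τ ⊆ {x : Fin n → ℝ | FF n τ j a (li x) ≤ 1} := by
    refine convexHull_min ?_ (convex_halfSpace_le (FF_isLinear n τ j a) 1)
    rintro _ (⟨o, rfl⟩ | ⟨o, rfl⟩)
    · change FF n τ j a (li ((1 + τ)⁻¹ • ver o)) ≤ 1
      rw [ver, ← pr_smul, FF_li_pr, FF_smul_single, inv_mul_le_iff₀ (by linarith)]
      have e1 : 0 ≤ (n : ℝ) * τ * (if a = o then 1 else 0) := by
        split_ifs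
        · positivity
        · simp
      have e2 : 0 ≤ ((n : ℝ) + 1 + τ) * (if j = o then 1 else 0) := by
        split_ifs
        · positivity
        · simp
      linarith
    · change FF n τ j a (li ((-(1 / (n : ℝ))) • ver o)) ≤ 1
      rw [ver, ← pr_smul, FF_li_pr, FF_smul_single]
      have hc : -(1 / (n : ℝ)) * ((1 + τ) - n * τ * (if a = o then 1 else 0) -
          (n + 1 + τ) * (if j = o then 1 else 0)) =
          (n * τ * (if a = o then 1 else 0) + (n + 1 + τ) * (if j = o then 1 else 0) - (1 + τ)) /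
          n := by
        ring
      rw [hc, div_le_one hn0]
      by_cases ha : a = o
      · have hj : j ≠ o := fun h => hja (ha.trans h.symm)
        rw [if_pos ha, if_neg hj]
        nlinarith
      · rw [if_neg ha]
        split_ifs
        · linarith
        · linarith
  exact hsub hx

/-- the matrix of the vertices -/
def vm {n : ℕ} (π : Equiv.Perm (Fin (n + 1))) : Matrix (Fin n) (Fin n) ℝ :=
  Matrix.of fun b => ver (π b.castSucc)

theorem vm_det (hCO : CO) (hG : GPID) {n : ℕ} (hn : 1 ≤ n) (π : Equiv.Perm (Fin (n + 1))) :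
    |(vm π).det| = 1 := by
  obtain ⟨_, h2, h3, _⟩ := hG n hn
  obtain ⟨_, _, _, _, _, _, _, _, _, _, _, _, h4⟩ :=
    hCO n n (fun l => Pi.single l 1 : Fin n → Fin n → ℝ)
  have h5 : mat (fun l => Pi.single l 1 : Fin n → Fin n → ℝ) π = vm π := by
    funext b
    rw [h4 π b (by omega), yv, h2]
    rfl
  rw [← h5]
  exact (h3 π).2

/-- the coefficients -/
def cc (n : ℕ) (τ : ℝ) (b₀ b : Fin n) : ℝ := if b = b₀ then -(1 / (n : ℝ)) else (1 + τ)⁻¹

/-- the map onto the simplex -/
def Ph {n : ℕ} (τ : ℝ) (π : Equiv.Perm (Fin (n + 1))) (b₀ : Fin n) (u : Fin n → ℝ) : Fin n → ℝ :=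
  ∑ b, (cc n τ b₀ b * u b) • ver (π b.castSucc)

theorem vol_Ph (hCO : CO) (hG : GPID) {n : ℕ} (hn : 1 ≤ n) {τ : ℝ} (h0 : 0 < τ)
    (π : Equiv.Perm (Fin (n + 1))) (b₀ : Fin n) :
    volume (Ph τ π b₀ '' Helper67.LM.T (Fin n)) =
      ENNReal.ofReal (1 / (n * (1 + τ) ^ (n - 1)) * (1 / n.factorial)) := by
  have hne : Nonempty (Fin n) := ⟨b₀⟩
  have hn0 : (0 : ℝ) < n := by exact_mod_cast hn
  let M : Matrix (Fin n) (Fin n) ℝ := Matrix.of fun b c => cc n τ b₀ b * vm π b c
  have hM : Ph τ π b₀ = Matrix.toLin' Mᵀ := by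
    funext u c
    rw [Matrix.toLin'_apply, Matrix.mulVec_transpose, Ph, Finset.sum_apply, Matrix.vecMul,
      dotProduct]
    refine Finset.sum_congr rfl fun b _ => ?_
    simp only [Pi.smul_apply, smul_eq_mul, M, Matrix.of_apply, vm]
    ring
  have hdet : |LinearMap.det (Matrix.toLin' Mᵀ)| = 1 / (n * (1 + τ) ^ (n - 1)) := by
    rw [LinearMap.det_toLin', Matrix.det_transpose]
    have h1 : M.det = (∏ b, cc n τ b₀ b) * (vm π).det := Matrix.det_mul_column _ _
    rw [h1, abs_mul, vm_det hCO hG hn, mul_one, Finset.abs_prod]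
    rw [← Finset.mul_prod_erase Finset.univ _ (Finset.mem_univ b₀)]
    have h2 : ∏ b ∈ Finset.univ.erase b₀, |cc n τ b₀ b| = ((1 + τ)⁻¹) ^ (n - 1) := by
      rw [Finset.prod_congr rfl (g := fun _ => (1 + τ)⁻¹)]
      · rw [Finset.prod_const, Finset.card_erase_of_mem (Finset.mem_univ _), Finset.card_univ,
          Fintype.card_fin]
      · intro b hb
        rw [cc, if_neg (Finset.ne_of_mem_erase hb), abs_of_pos (by positivity)]
    rw [h2, cc, if_pos rfl, abs_neg, abs_of_pos (by positivity), inv_pow]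
    field_simp
  rw [hM, Measure.addHaar_image_linearMap, hdet, Helper67.LM.vol_T, Fintype.card_fin,
    ← ENNReal.ofReal_mul (by positivity)]

theorem cover (hCO : CO) {n : ℕ} (hn : 1 ≤ n) {τ : ℝ} (h0 : 0 < τ) (h1 : τ ≤ 1)
    {x : Fin n → ℝ} (hx : x ∈ Kt n τ) :
    ∃ (a : Fin (n + 1)) (b₀ : Fin n),
      x ∈ Ph τ (Equiv.swap a (Fin.last n)) b₀ '' Helper67.LM.T (Fin n) := by
  have hn0 : (0 : ℝ) < n := by exact_mod_cast hn
  obtain ⟨c1, _, c3, _, c5, _⟩ := hCO n n (fun l => Pi.single l 1 : Fin n → Fin n → ℝ)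
  obtain ⟨j, -, hj⟩ := Finset.exists_min_image Finset.univ (li x) ⟨Fin.last n, Finset.mem_univ _⟩
  let t : Fin (n + 1) → ℝ := fun o => li x o + (-li x j)
  have ht0 : ∀ o, 0 ≤ t o := fun o => by
    have := hj o (Finset.mem_univ _)
    simp only [t]
    linarith
  have htj : t j = 0 := by simp [t]
  have htx : pr t = x := by
    conv_rhs => rw [← c1 x]
    funext l
    simp only [pr, t]
    ring
  have hne : (Finset.univ.erase j).Nonempty := by
    rw [← Finset.card_pos, Finset.card_erase_of_mem (Finset.mem_univ _), Finset.card_univ,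
      Fintype.card_fin]
    omega
  obtain ⟨a, ha, haj⟩ := Finset.exists_min_image (Finset.univ.erase j) t hne
  have haj' : a ≠ j := Finset.ne_of_mem_erase ha
  have hF : FF n τ j a t ≤ 1 := by
    have h2 := FF_le hn h0 h1 haj' hx
    rw [← htx, FF_li_pr] at h2
    exact h2
  set π : Equiv.Perm (Fin (n + 1)) := Equiv.swap a (Fin.last n) with hπ
  have hπl : π (Fin.last n) = a := Equiv.swap_apply_right _ _
  have hjl : π.symm j ≠ Fin.last n := by
    intro h
    have : j = π (Fin.last n) := by rw [← h, Equiv.apply_symm_apply]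
    rw [hπl] at this
    exact haj' this.symm
  obtain ⟨b₀, hb₀⟩ := Fin.exists_castSucc_eq.2 hjl
  have hb₀' : π b₀.castSucc = j := by rw [hb₀, Equiv.apply_symm_apply]
  have hsum : ∀ (V : Type) [AddCommGroup V] (g : Fin (n + 1) → V),
      ∑ b : Fin n, g (π b.castSucc) = ∑ o, g o - g a := by
    intro V _ g
    have h2 := Fin.sum_univ_castSucc (fun o => g (π o))
    rw [Equiv.sum_comp π g, hπl] at h2
    rw [h2, add_sub_cancel_right]
  refine ⟨a, b₀, fun b => if b = b₀ then n * t a else (1 + τ) * (t (π b.castSucc) - t a),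
    ⟨fun b => ?_, ?_⟩, ?_⟩
  · dsimp only
    split_ifs with hb
    · exact mul_nonneg hn0.le (ht0 a)
    · have h2 : π b.castSucc ≠ j := by
        intro h
        rw [← hb₀'] at h
        exact hb (Fin.castSucc_injective _ (π.injective h))
      have h3 := haj (π b.castSucc) (Finset.mem_erase.2 ⟨h2, Finset.mem_univ _⟩)
      exact mul_nonneg (by linarith) (by linarith)
  · have h2 : ∀ b : Fin n, (if b = b₀ then n * t a else (1 + τ) * (t (π b.castSucc) - t a)) =
        (1 + τ) * (t (π b.castSucc) - t a) +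
          (if b = b₀ then n * t a + (1 + τ) * t a else 0) := by
      intro b
      split_ifs with hb
      · rw [hb, hb₀', htj]
        ring
      · ring
    simp only [h2]
    rw [Finset.sum_add_distrib, ← Finset.mul_sum, Finset.sum_ite_eq' Finset.univ b₀,
      if_pos (Finset.mem_univ _), hsum ℝ (fun o => t o - t a)]
    rw [Finset.sum_sub_distrib, Finset.sum_const, Finset.card_univ, Fintype.card_fin,
      nsmul_eq_mul]
    rw [FF, htj] at hF
    push_cast
    linarith
  · rw [Ph]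
    have h2 : ∀ b : Fin n, (cc n τ b₀ b *
        (if b = b₀ then n * t a else (1 + τ) * (t (π b.castSucc) - t a))) •
          (ver (π b.castSucc) : Fin n → ℝ) = (t (π b.castSucc) - t a) • ver (π b.castSucc) := by
      intro b
      congr 1
      rw [cc]
      split_ifs with hb
      · rw [hb, hb₀', htj]
        field_simp
        ring
      · field_simp
    refine (Finset.sum_congr rfl fun b _ => h2 b).trans ?_
    rw [hsum (Fin n → ℝ) (fun o => (t o - t a) • ver o)]
    simp only [sub_smul, Finset.sum_sub_distrib, sub_self]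
    rw [← Finset.smul_sum, c5, smul_zero, sub_zero, zero_smul, sub_zero, ← c3, htx]

theorem gSH1 (hCO : CO) (hD : D0B) (hG : GPID) (hV : VOL) : SH1 := by
  intro n hn τ h0 h1
  have hn0 : (0 : ℝ) < n := by exact_mod_cast hn
  obtain ⟨d1, d2, d3, d4, _⟩ := hD n hn
  have hsub : (1 + τ)⁻¹ • D0 n ⊆ Kt n τ := by
    rw [d1, ← convexHull_smul]
    refine convexHull_mono ?_
    rintro _ ⟨_, ⟨o, rfl⟩, rfl⟩
    exact Or.inl ⟨o, rfl⟩
  have hsub2 : Kt n τ ⊆ D0 n := by
    obtain ⟨_, _, _, _, _, _, _, _, _, c10, _⟩ :=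
      hCO n n (fun l => Pi.single l 1 : Fin n → Fin n → ℝ)
    have hell : ∀ (j o : Fin (n + 1)) (c : ℝ),
        ell j (li (c • ver o)) = c * (1 - (n + 1) * if j = o then 1 else 0) := by
      intro j o c
      rw [ver, ← pr_smul, c10]
      simp only [ell, Pi.smul_apply, smul_eq_mul, ← Finset.mul_sum, Pi.single_apply,
        Finset.sum_ite_eq', Finset.mem_univ, if_true]
      split_ifs <;> ring
    refine convexHull_min ?_ d3.conv
    rintro _ (⟨o, rfl⟩ | ⟨o, rfl⟩)
    · intro j
      dsimp only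
      rw [hell, inv_mul_le_iff₀ (by linarith)]
      split_ifs
      · linarith
      · linarith
    · intro j
      dsimp only
      rw [hell]
      split_ifs
      · have : -(1 / (n : ℝ)) * (1 - (n + 1) * 1) = 1 := by
          field_simp
          ring
        rw [this]
      · have : 0 < 1 / (n : ℝ) := by positivity
        linarith
  have hconv : Convex ℝ (Kt n τ) := convex_convexHull ℝ _
  have hcomp : IsCompact (Kt n τ) :=
    ((finite_range _).union (finite_range _)).isCompact_convexHull ℝ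
  have hint : (interior (Kt n τ)).Nonempty := by
    have h2 : (interior ((1 + τ)⁻¹ • D0 n)).Nonempty := by
      rw [interior_smul₀ (by positivity)]
      exact d3.int.smul_set
    exact h2.mono (interior_mono hsub)
  refine ⟨⟨hconv, hcomp, hint⟩, hsub2, hsub, ?_⟩
  rw [(hV n hn).1]
  have hle : volume (Kt n τ) ≤ ∑ p : Fin (n + 1) × Fin n,
      volume (Ph τ (Equiv.swap p.1 (Fin.last n)) p.2 '' Helper67.LM.T (Fin n)) := by
    refine (measure_mono ?_).trans (measure_iUnion_fintype_le volume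
      (fun p : Fin (n + 1) × Fin n =>
        Ph τ (Equiv.swap p.1 (Fin.last n)) p.2 '' Helper67.LM.T (Fin n)))
    intro x hx
    obtain ⟨a, b₀, h⟩ := cover hCO hn h0 h1 hx
    exact mem_iUnion.2 ⟨(a, b₀), h⟩
  simp only [vol_Ph hCO hG hn h0] at hle
  rw [Finset.sum_const, Finset.card_univ, Fintype.card_prod, Fintype.card_fin, Fintype.card_fin,
    ← ENNReal.ofReal_nsmul] at hle
  have h2 := ENNReal.toReal_mono ENNReal.ofReal_ne_top hle
  rw [ENNReal.toReal_ofReal (by positivity)] at h2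
  have hpos : 0 < (1 + τ) ^ (n - 1) := by positivity
  calc (volume (Kt n τ)).toReal * (1 + τ) ^ (n - 1)
      ≤ (((n + 1) * n) • (1 / (n * (1 + τ) ^ (n - 1)) * (1 / (n.factorial : ℝ)))) *
        (1 + τ) ^ (n - 1) := mul_le_mul_of_nonneg_right h2 hpos.le
    _ = ((n : ℝ) + 1) / n.factorial := by
        rw [nsmul_eq_mul]
        push_cast
        field_simp

end Pool.Agent.Helper30.LQ
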