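import Pool.Agent.Helper31.LQ.Goals

/-!
# Packet TR
-/

open MeasureTheory Set
open scoped ENNReal Matrix
open Pool.Agent.Helper47.AQ

noncomputable section

namespace Pool.Agent.Helper30.LQ

open Pool.Agent Pool.Agent.Helper31.LQ

/-- the coordinates -/
def eq (n : ℕ) : E n ≃L[ℝ] (Fin n → ℝ) := EuclideanSpace.equiv (Fin n) ℝ

theorem eq_apply {n : ℕ} (x : E n) : eq n x = x.ofLp := rfl

theorem image_eq {n : ℕ} (K : Set (E n)) : (fun x : E n => x.ofLp) '' K = eq n '' K := rfl

theorem symm_image {n : ℕ} (K : Set (E n)) : (eq n).symm '' (eq n '' K) = K := by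
  rw [← image_comp]
  have : ((eq n).symm : (Fin n → ℝ) → E n) ∘ (eq n : E n → (Fin n → ℝ)) = id := by
    funext x
    exact (eq n).symm_apply_apply x
  rw [this, image_id]

theorem int_iff {n : ℕ} (K : Set (E n)) : (interior (eq n '' K)).Nonempty ↔
    (interior K).Nonempty := by
  have h : eq n '' interior K = interior (eq n '' K) := (eq n).toHomeomorph.image_interior K
  rw [← h, image_nonempty]

theorem body_iff {n : ℕ} (K : Set (E n)) : Body K ↔ IsBody (eq n '' K) := by
  constructor
  · intro h
    exact ⟨h.conv.linear_image (eq n).toLinearMap, h.comp.image (eq n).continuous,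
      (int_iff K).2 h.int⟩
  · intro h
    have h1 := h.conv.linear_image (eq n).symm.toLinearMap
    have h2 := h.comp.image (eq n).symm.continuous
    have h3 := symm_image K
    refine ⟨?_, ?_, (int_iff K).1 h.int⟩
    · rw [← h3]
      exact h1
    · rw [← h3]
      exact h2

theorem splx_iff {n : ℕ} (K : Set (E n)) : Splx K ↔ IsSimplex (eq n '' K) := by
  constructor
  · rintro ⟨v, hv, rfl⟩
    have h1 : eq n '' convexHull ℝ (range v) = convexHull ℝ (range (eq n ∘ v)) := by
      rw [range_comp]
      exact (eq n).toLinearMap.image_convexHull _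
    have h2 : AffineIndependent ℝ (eq n ∘ v) :=
      hv.map' (eq n).toLinearEquiv.toAffineEquiv.toAffineMap (eq n).injective
    have h3 : affineSpan ℝ (range (eq n ∘ v)) = ⊤ := by
      rw [h2.affineSpan_eq_top_iff_card_eq_finrank_add_one]
      simp
    refine ⟨?_, Fin (n + 1), inferInstance, eq n ∘ v, h2, h1⟩
    rw [h1, interior_convexHull_nonempty_iff_affineSpan_eq_top, h3]
  · rintro ⟨h1, σ, _, v, hv, hK⟩
    rw [hK, interior_convexHull_nonempty_iff_affineSpan_eq_top,
      hv.affineSpan_eq_top_iff_card_eq_finrank_add_one] at h1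
    have h2 : Fintype.card (Fin (n + 1)) = Fintype.card σ := by
      rw [h1]
      simp
    let e := Fintype.equivOfCardEq h2
    refine ⟨(eq n).symm ∘ v ∘ e, ?_, ?_⟩
    · refine AffineIndependent.map' ?_ (eq n).symm.toLinearEquiv.toAffineEquiv.toAffineMap
        (eq n).symm.injective
      exact hv.comp_embedding e.toEmbedding
    · rw [← symm_image K, hK, range_comp, e.surjective.range_comp]
      exact (eq n).symm.toLinearMap.image_convexHull _

theorem vol_eq {n : ℕ} (K : Set (E n)) : volume (eq n '' K) = volume K := by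
  have h := (PiLp.volume_preserving_toLp (Fin n))
  have h1 : eq n '' K = (WithLp.toLp 2 : (Fin n → ℝ) → E n) ⁻¹' K := by
    ext x
    constructor
    · rintro ⟨y, hy, rfl⟩
      exact hy
    · intro hx
      exact ⟨_, hx, rfl⟩
  rw [h1]
  exact h.measure_preimage_equiv (f := (MeasurableEquiv.toLp 2 (Fin n → ℝ))) K

theorem image_stdS (n : ℕ) : eq n '' stdS n = Helper67.LM.T (Fin n) := by
  ext x
  constructor
  · rintro ⟨y, hy, rfl⟩
    exact hy
  · intro hx
    exact ⟨(eq n).symm x, hx, rfl⟩

theorem gTR : TR := by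
  intro n K
  refine ⟨body_iff K, splx_iff K, vol_eq K, image_stdS n, ?_, ?_⟩
  · rw [splx_iff, image_stdS]
    exact Helper67.LM.simplex_T
  · intro h
    have h1 := (splx_iff K).1 h
    have h2 := (int_iff K).1 h1.1
    obtain ⟨v, hv, hK⟩ := h
    refine ⟨?_, ?_, h2⟩
    · rw [hK]
      exact convex_convexHull ℝ _
    · rw [hK]
      exact (finite_range v).isCompact_convexHull ℝ

end Pool.Agent.Helper30.LQ
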